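import Pool.Agent.Lib.MP_985a2b_al.Last

set_option autoImplicit false

/-!
# Fixed points of mapping class groups on CAT(0) spaces of dimension less than the genus

Definitions (in `Pool.Agent.Lib.MP_985a2b_al.Stmt` and `Defs`): `CAT0` (geodesic, triangles not
fatter than their Euclidean comparison triangles), `CovDimLE X d` (covering dimension at most `d`),
`SG g` (the fundamental group of the closed orientable surface of genus `g`, by its
standard presentation), `OutG` (automorphisms modulo inner automorphisms), `MCG g` (the
subgroup of `OutG (SG g)` generated by the Dehn twists about the curves of Lickorish,
a rotation of order `g` and an orientation reversing reflection; the theorems of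
Dehn-Nielsen-Baer and of Lickorish say that it is the whole group).
-/

namespace Pool.Agent.Results.MP_985a2b_al.MappingClassGroups

open MP985a

universe u

/-- For `g ≥ 3` every isometric action of the extended mapping class group of the closed orientable
surface of genus `g` on a complete CAT(0) space of covering dimension less than `g` has a global
fixed point. (No semisimplicity, properness or local compactness is assumed.) -/
theorem result : ∀ g : ℕ, 3 ≤ g →
    ∀ (X : Type u) [MetricSpace X] [CompleteSpace X] [Nonempty X], CAT0 X →
      ∀ d : ℕ, d < g → CovDimLE X d →
        ∀ [MulAction (MCG g) X] [IsIsometricSMul (MCG g) X],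
          ∃ x : X, ∀ γ : MCG g, γ • x = x := by
  intro g hg X _ _ _ hX d hd hdim _ _
  exact mcg_fixed hg X hX hd hdim

end Pool.Agent.Results.MP_985a2b_al.MappingClassGroups
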