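import Pool.Agent.Lib.OutF.Final

set_option autoImplicit false

/-!
# Fixed points of outer automorphism groups of free groups on CAT(0) spaces

Definitions (in `Pool.Agent.Lib.MP_985a2b_al.Stmt` and `Defs`): `CAT0` (geodesic, triangles not
fatter than their Euclidean comparison triangles), `CovDimLE X d` (covering dimension at most `d`),
`OutG` (automorphisms modulo inner automorphisms).
-/

namespace Pool.Agent.Results.MP_985a2b_al.OutFreeGroups

open MP985a

universe u

/-- For `n ≥ 4` every isometric action of the outer automorphism group of the free group of rank `n`
on a complete CAT(0) space of covering dimension at most `d`, where `d < n - 1`, has a global fixed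
point. (No semisimplicity, properness or local compactness is assumed.) -/
theorem result : ∀ n : ℕ, 4 ≤ n →
    ∀ (X : Type u) [MetricSpace X] [CompleteSpace X] [Nonempty X], CAT0 X →
      ∀ d : ℕ, d + 1 < n → CovDimLE X d →
        ∀ [MulAction (OutG (FreeGroup (Fin n))) X] [IsIsometricSMul (OutG (FreeGroup (Fin n))) X],
          ∃ x : X, ∀ γ : OutG (FreeGroup (Fin n)), γ • x = x := by
  intro n hn X _ _ _ hX d hd hdim _ _
  exact OutF.out_fixed hn X hX hd hdim

end Pool.Agent.Results.MP_985a2b_al.OutFreeGroups
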